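import Pool.Agent.H87.AN.TargetsC
import Pool.Agent.H80.AN.TargetsA
import Pool.Agent.H18.AX.WKH

/-! Board allh, row DSH (MP_2697e3_an): the classical Hessian on the regular set, if integrable, is the
distributional Hessian. -/

namespace Pool.Agent.H59.AN

open MeasureTheory Metric Set Filter Topology Pool.Agent.H87.SN Pool.Agent.H87.SH Pool.Agent.H87.AX
open Pool.Agent.H22.AN
open scoped ContDiff RealInnerProductSpace ENNReal

noncomputable section

/-- the tubes around a closed set decrease to the set -/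
theorem tube_inter {d : ℕ} {F : Set (V d)} (hF : IsClosed F) {s : ℕ → ℝ}
    (hs : Tendsto s atTop (𝓝 0)) {x : V d}
    (hx : ∀ n, x ∈ cthickening (3 * s n) F) : x ∈ F := by
  rw [← hF.closure_eq, closure_eq_iInter_cthickening F, mem_iInter₂]
  intro δ hδ
  have h1 : Tendsto (fun n => 3 * s n) atTop (𝓝 0) := by simpa using hs.const_mul 3
  obtain ⟨n, hn⟩ := (h1.eventually_lt_const hδ).exists
  exact cthickening_mono hn.le F (hx n)

theorem pf_DSH (hMUF : T_MUF) (hVOL : T_VOL) (hCTF : T_CTF) (hIBP : Pool.Agent.H87.SN.T_IBP) :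
    Pool.Agent.H22.AN.T_DSH := by
  intro d m U u G ε hd hε hG hU hUs hu hGu hsing hfin v w
  obtain ⟨hmu1, -, -, hmu4, -, -⟩ := hMUF d m G hG
  have : IsFiniteMeasure (mu G) := ⟨lt_top_iff_ne_top.2 hmu1⟩
  obtain ⟨Mc, hMc0, hct⟩ := hCTF d
  set F : Set (V d) := closedBall (0 : V d) (3 / 2) \ U with hF
  have hFc : IsCompact F := (isCompact_closedBall _ _).diff hU
  set M : ℝ := (mu G).real univ with hM
  have hM0 : 0 ≤ M := measureReal_nonneg
  set C0 : ℝ := 2 ^ (d + 2) * M / (ε / 5 ^ d) * 25 with hC0
  have hC00 : 0 ≤ C0 := by positivity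
  -- the tube
  set T : ℝ → Set (V d) := fun s => ball (0 : V d) 1 ∩ cthickening (3 * s) F with hT
  have hTm : ∀ s, MeasurableSet (T s) := fun s =>
    measurableSet_ball.inter isClosed_cthickening.measurableSet
  have hTv : ∀ s, 0 < s → s ≤ 1 / 2 → volume (T s) ≤ ENNReal.ofReal (C0 * s ^ 2) := by
    intro s hs hs2
    have h1 : T s ⊆ {x | x ∈ ball (0 : V d) 1 ∧ ε / 5 ^ d ≤ th G x (5 * s)} := by
      rintro x ⟨hx1, hx2⟩
      refine ⟨hx1, ?_⟩
      rw [hFc.cthickening_eq_biUnion_closedBall (by positivity)] at hx2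
      simp only [mem_iUnion] at hx2
      obtain ⟨y, hy, hxy⟩ := hx2
      have hy1 : ‖y‖ ≤ 3 / 2 := by simpa using hy.1
      have hyb : y ∈ ball (0 : V d) 2 := by
        rw [mem_ball, dist_zero_right]
        linarith
      have hbs : ball y s ⊆ ball (0 : V d) 2 := ball_subset_ball' (by
        rw [dist_zero_right]
        linarith)
      have h2 := hsing y hyb hy.2 s hs hbs
      rw [← (hmu4 _ measurableSet_ball hbs).2] at h2
      have h3 : ball y s ⊆ ball x (5 * s) := ball_subset_ball' (by
        have := mem_closedBall.1 hxy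
        rw [dist_comm] at this
        linarith)
      have h4 : (mu G).real (ball y s) ≤ (mu G).real (ball x (5 * s)) := measureReal_mono h3
      unfold th
      rw [le_div_iff₀ (by positivity)]
      have h5 : ε / 5 ^ d * (5 * s) ^ d = ε * s ^ d := by
        rw [mul_pow]
        field_simp
      linarith
    refine (measure_mono h1).trans ?_
    have h2 := hVOL d m G hG (ε / 5 ^ d) M 0 1 (5 * s) (by positivity) (by positivity) zero_le_one
      (measureReal_mono (subset_univ _))
    refine h2.trans (ENNReal.ofReal_le_ofReal (le_of_eq ?_))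
    rw [hC0]
    ring
  -- the sequence of scales
  set e : ℕ → ℝ := fun n => 1 / ((n : ℝ) + 2) with he
  have he0 : ∀ n, 0 < e n := fun n => by simp only [he]; positivity
  have he2 : ∀ n, e n ≤ 1 / 2 := fun n => by
    apply one_div_le_one_div_of_le (by norm_num)
    have : (0 : ℝ) ≤ n := Nat.cast_nonneg n
    linarith
  have het : Tendsto e atTop (𝓝 0) := by
    have h1 := (tendsto_one_div_add_atTop_nhds_zero_nat (𝕜 := ℝ)).comp (tendsto_add_atTop_nat 1)
    refine h1.congr fun n => ?_
    simp only [he, Function.comp_apply, Nat.cast_add, Nat.cast_one]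
    congr 1
    ring
  have hea : Antitone e := by
    intro a b hab
    apply one_div_le_one_div_of_le (by positivity)
    have : (a : ℝ) ≤ b := by exact_mod_cast hab
    linarith
  have hTi : ∀ x : V d, x ∈ ball (0 : V d) 1 → (∀ n, x ∈ T (e n)) → x ∉ U := by
    intro x hx h
    exact (tube_inter hFc.isClosed het fun n => (h n).2).2
  have hBF : ∀ x : V d, x ∈ ball (0 : V d) 1 → x ∉ U → x ∈ F := fun x hx hxU =>
    ⟨ball_subset_closedBall (ball_subset_ball (by norm_num) hx), hxU⟩
  -- the null set
  have hnull : volume (ball (0 : V d) 1 \ U) = 0 := by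
    have h1 : ∀ n, volume (ball (0 : V d) 1 \ U) ≤ ENNReal.ofReal (C0 * e n ^ 2) := by
      intro n
      refine (measure_mono ?_).trans (hTv (e n) (he0 n) (he2 n))
      rintro x ⟨hx1, hx2⟩
      exact ⟨hx1, self_subset_cthickening F (hBF x hx1 hx2)⟩
    have h2 : Tendsto (fun n => ENNReal.ofReal (C0 * e n ^ 2)) atTop (𝓝 0) := by
      have h3 : Tendsto (fun n => C0 * e n ^ 2) atTop (𝓝 0) := by
        simpa using (het.pow 2).const_mul C0
      simpa using ENNReal.tendsto_ofReal h3
    exact le_antisymm (ge_of_tendsto h2 (Eventually.of_forall h1)) zero_le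
  set S : Set (V d) := ball (0 : V d) 1 ∩ U with hS
  set D : V d → E m := fun x => fderiv ℝ (fderiv ℝ u) x v w with hD
  have hSo : IsOpen S := isOpen_ball.inter hU
  have hSO : S ⊆ U := inter_subset_right
  have hu1 : ContDiffOn ℝ ∞ (fderiv ℝ u) U := hu.fderiv_of_isOpen hU (by simp)
  have hu2 : ContDiffOn ℝ ∞ (fderiv ℝ (fderiv ℝ u)) U := hu1.fderiv_of_isOpen hU (by simp)
  have hDc : ContinuousOn D U :=
    (hu2.continuousOn.clm_apply continuousOn_const).clm_apply continuousOn_const
  -- integrability of the Hessian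
  have hDi : IntegrableOn D S := by
    refine ⟨(hDc.mono hSO).aestronglyMeasurable hSo.measurableSet, ?_⟩
    rw [HasFiniteIntegral]
    have h1 : ∀ x, ‖D x‖ₑ ≤ ENNReal.ofReal (((d + 2 : ℕ) * (d + 2 : ℕ) * (‖v‖ * ‖w‖))) *
        ENNReal.ofReal (Real.sqrt (hsq u x)) := by
      intro x
      rw [← ofReal_norm, ← ENNReal.ofReal_mul (by positivity)]
      exact ENNReal.ofReal_le_ofReal (Pool.Agent.H18.AX.hess_le (fderiv ℝ (fderiv ℝ u) x) v w)
    refine lt_of_le_of_lt (lintegral_mono h1) ?_
    rw [lintegral_const_mul' _ _ ENNReal.ofReal_ne_top]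
    exact ENNReal.mul_lt_top ENNReal.ofReal_lt_top (lt_top_iff_ne_top.2 hfin)
  refine ⟨hDi, hnull, fun φ hφ hφc hφs => ?_⟩
  -- the cutoffs
  choose ct hcd hc01 hcz hc1 hcb using fun n => hct F (e n) (he0 n)
  have hcn : ∀ n x, 0 ≤ ct n x := fun n x => (hc01 n x).1
  have hcl : ∀ n x, ct n x ≤ 1 := fun n x => (hc01 n x).2
  have hcb' : ∀ n x, |fderiv ℝ (ct n) x v| ≤ Mc * ‖v‖ * (1 / e n) := by
    intro n x
    have h1 := (fderiv ℝ (ct n) x).le_opNorm v
    rw [Real.norm_eq_abs] at h1
    refine h1.trans ?_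
    refine (mul_le_mul_of_nonneg_right (hcb n x) (norm_nonneg v)).trans (le_of_eq ?_)
    ring
  -- test function
  have hφ0 : ∀ x, x ∉ ball (0 : V d) 1 → φ x = 0 := fun x hx =>
    image_eq_zero_of_notMem_tsupport fun h => hx (hφs h)
  have hφ1 : ∀ x, x ∉ ball (0 : V d) 1 → fderiv ℝ φ x = 0 := fun x hx => by
    have : x ∉ tsupport (fderiv ℝ φ) := fun h => hx (hφs (tsupport_fderiv_subset ℝ h))
    exact image_eq_zero_of_notMem_tsupport this
  obtain ⟨Mφ, hMφ⟩ := hφc.exists_bound_of_continuous hφ.continuous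
  have hMφ0 : 0 ≤ Mφ := (norm_nonneg _).trans (hMφ 0)
  have hφ' : Continuous fun x => fderiv ℝ φ x v :=
    (hφ.continuous_fderiv (by simp)).clm_apply continuous_const
  obtain ⟨Mψ, hMψ⟩ := (hφc.fderiv_apply ℝ v).exists_bound_of_continuous hφ'
  -- vanishing near the complement of the regular set
  have hnear : ∀ n x, x ∈ F → ct n x = 0 ∧ fderiv ℝ (ct n) x = 0 := by
    intro n x hx
    refine ⟨hcz n x ⟨x, hx, by rw [dist_self]; exact he0 n⟩, ?_⟩
    have : ct n =ᶠ[𝓝 x] fun _ => (0 : ℝ) := by
      filter_upwards [ball_mem_nhds x (he0 n)] with y hy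
      exact hcz n y ⟨x, hx, hy⟩
    rw [this.fderiv_eq]
    simp
  have hfar : ∀ n x, x ∉ cthickening (3 * e n) F → ct n x = 1 ∧ fderiv ℝ (ct n) x = 0 := by
    intro n x hx
    have h1 : ∀ z, z ∉ cthickening (3 * e n) F → ct n z = 1 := by
      intro z hz
      refine hc1 n z fun y hy => ?_
      by_contra hcon
      exact hz (mem_cthickening_of_dist_le z y _ F hy (not_le.1 hcon).le)
    refine ⟨h1 x hx, ?_⟩
    have : ct n =ᶠ[𝓝 x] fun _ => (1 : ℝ) := by
      filter_upwards [isClosed_cthickening.isOpen_compl.mem_nhds hx] with y hy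
      exact h1 y hy
    rw [this.fderiv_eq]
    simp
  -- the gradient
  set B2 : Set (V d) := ball 0 2 with hB2
  have hB2m : MeasurableSet B2 := measurableSet_ball
  have : IsFiniteMeasure (volume.restrict B2) := ⟨by
    rw [Measure.restrict_apply_univ]; exact measure_ball_lt_top⟩
  set g : V d → E m := B2.indicator fun x => G x w with hg
  have hGw : MemLp (fun x => G x w) 2 (volume.restrict B2) := by
    have h1 := ContinuousLinearMap.comp_memLp'
      (ContinuousLinearMap.apply ℝ (E m) w) hG
    exact h1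
  have hg2 : MemLp g 2 volume := (memLp_indicator_iff_restrict hB2m).2 hGw
  have hgi : Integrable g := by
    rw [hg, integrable_indicator_iff hB2m]
    exact hGw.integrable (by norm_num)
  have hgsq : Integrable fun x => ‖g x‖ ^ 2 :=
    (memLp_two_iff_integrable_sq_norm hg2.1).1 hg2
  have hCb : ∀ n x, ‖(φ x * fderiv ℝ (ct n) x v) • g x‖ ≤
      (Mφ * (Mc * ‖v‖ * (1 / e n))) * ‖g x‖ := by
    intro n x
    rw [norm_smul, norm_mul]
    exact mul_le_mul_of_nonneg_right (mul_le_mul (hMφ x) (hcb' n x) (norm_nonneg _) hMφ0)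
      (norm_nonneg _)
  have hBb : ∀ n x, ‖(ct n x * fderiv ℝ φ x v) • g x‖ ≤ Mψ * ‖g x‖ := by
    intro n x
    rw [norm_smul, norm_mul, Real.norm_of_nonneg (hcn _ _)]
    have h1 : ct n x * ‖fderiv ℝ φ x v‖ ≤ 1 * Mψ :=
      mul_le_mul (hcl _ _) (hMψ x) (norm_nonneg _) zero_le_one
    nlinarith [norm_nonneg (g x)]
  have hiC : ∀ n, Integrable fun x => (φ x * fderiv ℝ (ct n) x v) • g x := by
    intro n
    refine (hgi.norm.const_mul (Mφ * (Mc * ‖v‖ * (1 / e n)))).mono' ?_
      (Eventually.of_forall fun x => hCb n x)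
    have h1 : Continuous fun x => fderiv ℝ (ct n) x v :=
      ((hcd _).continuous_fderiv (by simp)).clm_apply continuous_const
    exact (hφ.continuous.mul h1).aestronglyMeasurable.smul hgi.1
  have hiB : ∀ n, Integrable fun x => (ct n x * fderiv ℝ φ x v) • g x := by
    intro n
    refine (hgi.norm.const_mul Mψ).mono' ?_ (Eventually.of_forall fun x => hBb n x)
    exact ((hcd _).continuous.mul hφ').aestronglyMeasurable.smul hgi.1
  -- the identity for the cut off functions
  have hident : ∀ n, ∫ x in S, (φ x * ct n x) • D x =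
      - ((∫ x, (φ x * fderiv ℝ (ct n) x v) • g x) +
        ∫ x, (ct n x * fderiv ℝ φ x v) • g x) := by
    intro n
    set k := ct n with hk
    have hkd : ContDiff ℝ ∞ k := hcd _
    have ha : ContDiff ℝ 1 (fun x => φ x * k x) := (hφ.mul hkd).of_le (by simp)
    have hac : HasCompactSupport (fun x => φ x * k x) := hφc.mul_right
    have has : tsupport (fun x => φ x * k x) ⊆ U := by
      intro x hx
      have h1 : x ∈ tsupport φ := tsupport_mul_subset_left (f := φ) (g := k) hx
      by_contra hxU
      have hxF := hBF x (hφs h1) hxU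
      have h2 : x ∈ (ball x (e n))ᶜ := by
        refine closure_minimal (s := Function.support fun x => φ x * k x) ?_
          isOpen_ball.isClosed_compl hx
        intro y hy hyb
        apply hy
        have h3 : k y = 0 := hcz n y ⟨x, hxF, hyb⟩
        simp only [h3, mul_zero]
      exact h2 (mem_ball_self (he0 n))
    have hb : ContDiffOn ℝ 1 (fun y => fderiv ℝ u y w) U :=
      (hu1.clm_apply contDiffOn_const).of_le (by simp)
    have hib := hIBP.1 (d + 2) m U _ (fun y => fderiv ℝ u y w) v hU ha hac has hb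
    have hL : ∫ x, (φ x * k x) • fderiv ℝ (fun y => fderiv ℝ u y w) x v =
        ∫ x in S, (φ x * k x) • D x := by
      rw [← integral_indicator hSo.measurableSet]
      congr 1
      funext x
      by_cases hx : x ∈ S
      · rw [indicator_of_mem hx]
        congr 1
        have h1 : DifferentiableAt ℝ (fderiv ℝ u) x :=
          (hu1.differentiableOn (by simp)).differentiableAt (hU.mem_nhds (hSO hx))
        rw [(h1.hasFDerivAt.clm_apply (hasFDerivAt_const w x)).fderiv]
        simp [hD]
      · rw [indicator_of_notMem hx]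
        have : φ x * k x = 0 := by
          by_cases hxb : x ∈ ball (0 : V d) 1
          · have hr : x ∉ U := fun h => hx ⟨hxb, h⟩
            rw [hk, (hnear n x (hBF x hxb hr)).1, mul_zero]
          · rw [hφ0 x hxb, zero_mul]
        rw [this, zero_smul]
    rw [← hL, hib, neg_inj, ← integral_add (hiC n) (hiB n)]
    apply integral_congr_ae
    filter_upwards [(ae_restrict_iff' hU.measurableSet).1 hGu] with x hx
    have hm : fderiv ℝ (fun x => φ x * k x) x v = φ x * fderiv ℝ k x v + k x * fderiv ℝ φ x v := by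
      rw [fderiv_fun_mul (hφ.differentiable (by simp)).differentiableAt
        (hkd.differentiable (by simp)).differentiableAt]
      simp
    rw [hm]
    by_cases hxo : x ∈ U
    · have hgx : g x = fderiv ℝ u x w := by
        rw [hg, indicator_of_mem (hUs hxo), hx hxo]
      rw [hgx, add_smul]
    · have h0 : φ x * fderiv ℝ k x v = 0 ∧ k x * fderiv ℝ φ x v = 0 := by
        by_cases hxb : x ∈ ball (0 : V d) 1
        · obtain ⟨h5, h6⟩ := hnear n x (hBF x hxb hxo)
          rw [hk, h5, h6]
          simp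
        · rw [hφ0 x hxb, hφ1 x hxb]
          simp
      rw [h0.1, h0.2]
      simp
  -- the limits
  have hev : ∀ x : V d, x ∈ S → ∀ᶠ n in atTop, ct n x = 1 := by
    intro x hx
    have h1 : ∃ N, x ∉ T (e N) := by
      by_contra hcon
      push Not at hcon
      exact hTi x hx.1 hcon hx.2
    obtain ⟨N, hN⟩ := h1
    filter_upwards [eventually_ge_atTop N] with n hn
    refine (hfar n x fun h => hN ⟨hx.1, ?_⟩).1
    refine cthickening_mono ?_ F h
    have := hea hn
    linarith
  have hAlim : Tendsto (fun n => ∫ x in S, (φ x * ct n x) • D x) atTop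
      (𝓝 (∫ x in S, φ x • D x)) := by
    refine tendsto_integral_of_dominated_convergence (fun x => Mφ * ‖D x‖) (fun n => ?_)
      (hDi.norm.const_mul _) (fun n => Eventually.of_forall fun x => ?_) ?_
    · exact (hφ.continuous.mul (hcd _).continuous).aestronglyMeasurable.smul hDi.1
    · rw [norm_smul, norm_mul, Real.norm_of_nonneg (hcn _ _)]
      have h1 : ‖φ x‖ * ct n x ≤ Mφ * 1 :=
        mul_le_mul (hMφ x) (hcl _ _) (hcn _ _) hMφ0
      nlinarith [norm_nonneg (D x)]
    · refine ae_restrict_of_forall_mem hSo.measurableSet fun x hx => ?_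
      refine tendsto_const_nhds.congr' ?_
      filter_upwards [hev x hx] with n hn
      rw [hn, mul_one]
  have hBlim : Tendsto (fun n => ∫ x, (ct n x * fderiv ℝ φ x v) • g x) atTop
      (𝓝 (∫ x, (fderiv ℝ φ x v) • g x)) := by
    refine tendsto_integral_of_dominated_convergence (fun x => Mψ * ‖g x‖) (fun n => (hiB n).1)
      (hgi.norm.const_mul _) (fun n => Eventually.of_forall fun x => hBb n x) ?_
    have hax : ∀ᵐ x : V d, x ∉ ball (0 : V d) 1 \ U := measure_eq_zero_iff_ae_notMem.1 hnull
    filter_upwards [hax] with x hx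
    by_cases hxb : x ∈ ball (0 : V d) 1
    · refine tendsto_const_nhds.congr' ?_
      have hxU : x ∈ U := by
        by_contra h
        exact hx ⟨hxb, h⟩
      filter_upwards [hev x ⟨hxb, hxU⟩] with n hn
      rw [hn, one_mul]
    · rw [hφ1 x hxb]
      simp
  have hClim : Tendsto (fun n => ∫ x, (φ x * fderiv ℝ (ct n) x v) • g x) atTop (𝓝 0) := by
    set I : ℕ → ℝ := fun n => ∫ x in T (e n), ‖g x‖ ^ 2 with hI
    have hI0 : ∀ n, 0 ≤ I n := fun n => integral_nonneg fun x => by positivity
    have hanti : Antitone fun n => T (e n) := by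
      intro a b hab x hx
      refine ⟨hx.1, cthickening_mono ?_ F hx.2⟩
      have h1 := hea hab
      linarith
    have hIlim : Tendsto I atTop (𝓝 0) := by
      have h1 := tendsto_setIntegral_of_antitone (μ := volume) (f := fun x => ‖g x‖ ^ 2)
        (fun n => hTm (e n)) hanti ⟨0, hgsq.integrableOn⟩
      have h2 : volume (⋂ n, T (e n)) = 0 := by
        refine measure_mono_null ?_ hnull
        intro x hx
        rw [mem_iInter] at hx
        exact ⟨(hx 0).1, hTi x (hx 0).1 hx⟩
      rw [setIntegral_measure_zero _ h2] at h1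
      exact h1
    set K : ℝ := Mφ * (Mc * ‖v‖) with hK
    have hK0 : 0 ≤ K := by positivity
    have hbound : ∀ n, ‖∫ x, (φ x * fderiv ℝ (ct n) x v) • g x‖ ≤
        K * (Real.sqrt (I n) / 2 + C0 / 2 * (Real.sqrt (I n) + e n)) := by
      intro n
      set l : ℝ := Real.sqrt (I n) + e n with hl
      have hsq := Real.sqrt_nonneg (I n)
      have hen := he0 n
      have hl0 : 0 < l := by positivity
      have hout : ∀ x, x ∉ T (e n) → ‖(φ x * fderiv ℝ (ct n) x v) • g x‖ = 0 := by
        intro x hx
        by_cases hxb : x ∈ ball (0 : V d) 1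
        · rw [(hfar n x fun h => hx ⟨hxb, h⟩).2]
          simp
        · rw [hφ0 x hxb]
          simp
      refine (norm_integral_le_integral_norm _).trans ?_
      rw [← setIntegral_eq_integral_of_forall_compl_eq_zero hout]
      have hTv' := hTv (e n) hen (he2 n)
      have hvt : volume (T (e n)) ≠ ⊤ :=
        ne_top_of_le_ne_top ENNReal.ofReal_ne_top hTv'
      have hvr : volume.real (T (e n)) ≤ C0 * e n ^ 2 := by
        rw [measureReal_def]
        exact ENNReal.toReal_le_of_le_ofReal (by positivity) hTv'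
      have hi1 : IntegrableOn (fun x => K / (2 * l) * ‖g x‖ ^ 2) (T (e n)) :=
        (hgsq.const_mul _).integrableOn
      have hi2 : IntegrableOn (fun _ : V d => K * l / (2 * e n ^ 2)) (T (e n)) :=
        integrableOn_const hvt
      have h2 : ∫ x in T (e n), ‖(φ x * fderiv ℝ (ct n) x v) • g x‖ ≤
          ∫ x in T (e n), (K / (2 * l) * ‖g x‖ ^ 2 + K * l / (2 * e n ^ 2)) := by
        refine integral_mono (hiC n).norm.integrableOn (hi1.add hi2) fun x => ?_
        refine (hCb n x).trans ?_
        have h3 : ‖g x‖ ^ 2 / (2 * l) + l / (2 * e n ^ 2) - ‖g x‖ / e n =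
            (‖g x‖ - l / e n) ^ 2 / (2 * l) := by
          field_simp
          ring
        have h4 : 0 ≤ (‖g x‖ - l / e n) ^ 2 / (2 * l) := by positivity
        have h5 : ‖g x‖ / e n ≤ ‖g x‖ ^ 2 / (2 * l) + l / (2 * e n ^ 2) := by linarith
        calc Mφ * (Mc * ‖v‖ * (1 / e n)) * ‖g x‖ = K * (‖g x‖ / e n) := by rw [hK]; ring
          _ ≤ K * (‖g x‖ ^ 2 / (2 * l) + l / (2 * e n ^ 2)) := mul_le_mul_of_nonneg_left h5 hK0
          _ = _ := by ring
      refine h2.trans ?_
      rw [integral_add hi1 hi2, integral_const_mul, setIntegral_const, smul_eq_mul]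
      have h6 : K / (2 * l) * I n ≤ K * (Real.sqrt (I n) / 2) := by
        have h7 : I n ≤ Real.sqrt (I n) * l := by
          have h8 := Real.mul_self_sqrt (hI0 n)
          rw [hl]
          nlinarith [mul_nonneg hsq hen.le]
        have h9 : I n / (2 * l) ≤ Real.sqrt (I n) / 2 := by
          rw [div_le_div_iff₀ (by positivity) (by norm_num)]
          nlinarith
        calc K / (2 * l) * I n = K * (I n / (2 * l)) := by ring
          _ ≤ _ := mul_le_mul_of_nonneg_left h9 hK0
      have h10 : volume.real (T (e n)) * (K * l / (2 * e n ^ 2)) ≤ K * (C0 / 2 * l) := by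
        calc volume.real (T (e n)) * (K * l / (2 * e n ^ 2)) ≤
            C0 * e n ^ 2 * (K * l / (2 * e n ^ 2)) :=
              mul_le_mul_of_nonneg_right hvr (by positivity)
          _ = K * (C0 / 2 * l) := by
              field_simp
      calc _ ≤ K * (Real.sqrt (I n) / 2) + K * (C0 / 2 * l) := add_le_add h6 h10
        _ = _ := by ring
    refine squeeze_zero_norm hbound ?_
    have h1 : Tendsto (fun n => Real.sqrt (I n)) atTop (𝓝 0) := by
      have := (Real.continuous_sqrt.tendsto 0).comp hIlim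
      rwa [Real.sqrt_zero] at this
    have h2 := ((h1.div_const 2).add ((h1.add het).const_mul (C0 / 2))).const_mul K
    simpa using h2
  have hfin2 := (hClim.add hBlim).neg
  rw [zero_add] at hfin2
  have huniq := tendsto_nhds_unique hAlim (hfin2.congr fun n => (hident n).symm)
  have hgG : ∫ x, (fderiv ℝ φ x v) • G x w = ∫ x, (fderiv ℝ φ x v) • g x := by
    congr 1
    funext x
    by_cases hxb : x ∈ B2
    · rw [hg, indicator_of_mem hxb]
    · have hxb1 : x ∉ ball (0 : V d) 1 := fun h => hxb (ball_subset_ball (by norm_num) h)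
      rw [hφ1 x hxb1]
      simp
  rw [hgG, huniq, neg_neg]

end

end Pool.Agent.H59.AN
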