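import Pool.Agent.H87.AN.TargetsC

/-! Board allh, row TOG (MP_2697e3_an): theorem of Tonelli for cells. -/

namespace Pool.Agent.H59.AN

open MeasureTheory Metric Set Filter Topology Pool.Agent.H87.SN Pool.Agent.H87.SH Pool.Agent.H87.AX
open Pool.Agent.H22.AN
open scoped ENNReal

theorem pf_TOG : T_TOG := by
  intro d A S ρ f hA hS hf
  have hD : MeasurableSet {p : V d × V d | dist p.2 p.1 < ρ} :=
    measurableSet_lt (measurable_snd.dist measurable_fst) measurable_const
  obtain ⟨k, hk⟩ : ∃ k : V d × V d → ℝ≥0∞,
      k = {p : V d × V d | dist p.2 p.1 < ρ}.indicator (fun _ => 1) := ⟨_, rfl⟩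
  have hkm : Measurable k := by
    rw [hk]
    exact measurable_const.indicator hD
  obtain ⟨g, hg⟩ : ∃ g : V d → ℝ≥0∞, g = S.indicator f := ⟨_, rfl⟩
  have hgm : Measurable g := by
    rw [hg]
    exact hf.indicator hS
  have hk1 : ∀ x y, dist y x < ρ → k (x, y) = 1 := by
    intro x y h
    rw [hk, indicator_of_mem (show (x, y) ∈ {p : V d × V d | dist p.2 p.1 < ρ} from h)]
  have hk0 : ∀ x y, ¬ dist y x < ρ → k (x, y) = 0 := by
    intro x y h
    rw [hk, indicator_of_notMem (show (x, y) ∉ {p : V d × V d | dist p.2 p.1 < ρ} from h)]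
  have hin : ∀ x : V d, ∫⁻ y in S ∩ ball x ρ, f y = ∫⁻ y, k (x, y) * g y := by
    intro x
    rw [← lintegral_indicator (hS.inter measurableSet_ball)]
    refine lintegral_congr fun y => ?_
    by_cases h1 : dist y x < ρ
    · rw [hk1 x y h1, one_mul, hg]
      by_cases h2 : y ∈ S
      · rw [indicator_of_mem (show y ∈ S ∩ ball x ρ from ⟨h2, h1⟩), indicator_of_mem h2]
      · rw [indicator_of_notMem (show y ∉ S ∩ ball x ρ from fun h => h2 h.1),
          indicator_of_notMem h2]
    · rw [hk0 x y h1, zero_mul,
        indicator_of_notMem (show y ∉ S ∩ ball x ρ from fun h => h1 h.2)]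
  have hm2 : Measurable (fun p : V d × V d => k p * g p.2) := hkm.mul (hgm.comp measurable_snd)
  refine ⟨?_, ?_⟩
  · have h1 : (fun x : V d => ∫⁻ y in S ∩ ball x ρ, f y) = fun x => ∫⁻ y, k (x, y) * g y :=
      funext hin
    rw [h1]
    exact hm2.lintegral_prod_right'
  · calc ∫⁻ x in A, ∫⁻ y in S ∩ ball x ρ, f y
        = ∫⁻ x in A, ∫⁻ y, k (x, y) * g y := lintegral_congr fun x => hin x
      _ = ∫⁻ y, ∫⁻ x in A, k (x, y) * g y := lintegral_lintegral_swap hm2.aemeasurable
      _ = ∫⁻ y, volume (A ∩ ball y ρ) * g y := by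
          refine lintegral_congr fun y => ?_
          have hky : Measurable (fun x => k (x, y)) := hkm.comp measurable_prodMk_right
          rw [lintegral_mul_const _ hky]
          congr 1
          have h2 : (fun x => k (x, y)) = (ball y ρ).indicator (fun _ => 1) := by
            funext x
            by_cases h1 : dist y x < ρ
            · rw [hk1 x y h1, indicator_of_mem (show x ∈ ball y ρ by
                rw [mem_ball, dist_comm]; exact h1)]
            · rw [hk0 x y h1, indicator_of_notMem (show x ∉ ball y ρ by
                rw [mem_ball, dist_comm]; exact h1)]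
          rw [h2, lintegral_indicator measurableSet_ball, setLIntegral_const, one_mul,
            Measure.restrict_apply measurableSet_ball, inter_comm]
      _ = ∫⁻ y in S, volume (A ∩ ball y ρ) * f y := by
          rw [← lintegral_indicator hS]
          refine lintegral_congr fun y => ?_
          rw [hg]
          by_cases h2 : y ∈ S
          · rw [indicator_of_mem h2, indicator_of_mem h2]
          · rw [indicator_of_notMem h2, indicator_of_notMem h2, mul_zero]

end Pool.Agent.H59.AN
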